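import Pool.Agent.H55.CG.Targets

/-!
# The sum over all patterns with `k` pairs (row SUM of cog_modules)
-/

set_option autoImplicit false

open Pool.Agent.H55.CG

namespace Pool.Agent.H40.CG.SUM

theorem pf_SUM : T_SUM := by
  intro q R k c
  induction k with
  | zero => simp [PT, wL]
  | succ k ih =>
    have hinj : Function.Injective (fun c : (ℕ × ℕ) × List (ℕ × ℕ) => c.1 :: c.2) := by
      rintro ⟨a, b⟩ ⟨a', b'⟩ h
      simp only [List.cons.injEq] at h
      exact Prod.ext h.1 h.2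
    have h1 : ∑ L ∈ PT q R (k + 1), wL c L =
        ∑ x ∈ (Finset.Icc (2 * q) R ×ˢ Finset.Ico q (2 * q)) ×ˢ PT q R k,
          wL c (x.1 :: x.2) := by
      change ∑ L ∈ ((Finset.Icc (2 * q) R ×ˢ Finset.Ico q (2 * q)) ×ˢ PT q R k).image
        (fun c => c.1 :: c.2), wL c L = _
      rw [Finset.sum_image fun a _ b _ h => hinj h]
    have h2 : (∑ u ∈ Finset.Icc (2 * q) R, c / (2 * (u : ℝ) + 1)) *
        (∑ v ∈ Finset.Ico q (2 * q), c / (2 * (v : ℝ) + 1)) =
        ∑ p ∈ Finset.Icc (2 * q) R ×ˢ Finset.Ico q (2 * q),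
          c / (2 * (p.1 : ℝ) + 1) * (c / (2 * (p.2 : ℝ) + 1)) := by
      rw [Finset.sum_mul_sum, Finset.sum_product]
    rw [h1, Finset.sum_product, pow_succ, ← ih, h2, mul_comm (∑ L ∈ PT q R k, wL c L),
      Finset.sum_mul]
    refine Finset.sum_congr rfl fun p _ => ?_
    rw [Finset.mul_sum]
    refine Finset.sum_congr rfl fun L _ => ?_
    rfl

end Pool.Agent.H40.CG.SUM
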